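import Mathlib
import Pool.Agent.R125.PatB
import Pool.Agent.R125.PatC

/-!
# MP_6350a9: 2-regularity of `A_v(0,d)` and `A_v(d)` for every pattern `v`

The definitions `binExp`, `leadZeros`, `padded`, `occ`, `eV` (this is `e_v(n)`) and `AV`
(this is `A_v(n,d)`) are in `Pool/Agent/R125/PatB.lean`.
-/

namespace Pool.Agent.Results.MP_6350a9_co.RegularityDichotomy

open R125P

/-- `A_v(d)` -/
noncomputable def AVs (v : List ℕ) (d : ℕ) : ℕ := sSup (Set.range fun n => AV v n d)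

/-- the subsequences `(a(2^e d + ρ))_{d ≥ 0}`, `0 ≤ ρ < 2^e` -/
def kernelSeqs (a : ℕ → ℤ) : Set (ℕ → ℤ) :=
  {f | ∃ e ρ, ρ < 2 ^ e ∧ f = fun d => a (2 ^ e * d + ρ)}

/-- 2-regular sequences: the ℤ-module spanned by the 2-kernel is finitely generated -/
def TwoRegular (a : ℕ → ℤ) : Prop := (Submodule.span ℤ (kernelSeqs a)).FG

/-- the sequence `(A_v(0,d))_{d ≥ 1}`, with value `0` at `d = 0` -/
noncomputable def seqZero (v : List ℕ) : ℕ → ℤ := fun d => if d = 0 then 0 else (AV v 0 d : ℤ)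

/-- the sequence `(A_v(d))_{d ≥ 1}`, with value `0` at `d = 0` -/
noncomputable def seqSup (v : List ℕ) : ℕ → ℤ := fun d => if d = 0 then 0 else (AVs v d : ℤ)

lemma not_regular (a : ℕ → ℤ)
    (h : ∀ N, ∃ f : Fin N → (ℕ → ℤ), (∀ k, f k ∈ kernelSeqs a) ∧ LinearIndependent ℤ f) :
    ¬ TwoRegular a := by
  intro hreg
  unfold TwoRegular at hreg
  have hfin : Module.Finite ℤ (Submodule.span ℤ (kernelSeqs a)) := Module.Finite.iff_fg.2 hreg
  obtain ⟨f, hf, hli⟩ := h (Module.finrank ℤ (Submodule.span ℤ (kernelSeqs a)) + 1)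
  let f' : Fin (Module.finrank ℤ (Submodule.span ℤ (kernelSeqs a)) + 1) →
      Submodule.span ℤ (kernelSeqs a) := fun k => ⟨f k, Submodule.subset_span (hf k)⟩
  have hli' : LinearIndependent ℤ f' :=
    LinearIndependent.of_comp (Submodule.span ℤ (kernelSeqs a)).subtype hli
  have := hli'.fintype_card_le_finrank
  rw [Fintype.card_fin] at this
  omega

variable {v : List ℕ}

/-- `A_v(n,d)` in arithmetic form -/
lemma AV_eq (hv : v ≠ []) (h : ∀ x ∈ v, x = 0 ∨ x = 1) (n d : ℕ) :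
    AV v n d = sInf {l | 1 ≤ l ∧ E v.length (val v) (n + l * d) ≠ E v.length (val v) n} := by
  unfold AV
  congr 1
  ext l
  simp only [Set.mem_ofPred_eq]
  rw [eV_odd_iff hv h]

lemma AV_le (hv : v ≠ []) (h : ∀ x ∈ v, x = 0 ∨ x = 1) {n d l : ℕ} (hl : 1 ≤ l)
    (hE : E v.length (val v) (n + l * d) ≠ E v.length (val v) n) : AV v n d ≤ l := by
  rw [AV_eq hv h]
  exact Nat.sInf_le ⟨hl, hE⟩

lemma le_AV (hv : v ≠ []) (h : ∀ x ∈ v, x = 0 ∨ x = 1) {n d T : ℕ} (hd : 0 < d)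
    (hE : ∀ l, l ≤ T → E v.length (val v) (n + l * d) = E v.length (val v) n) : T < AV v n d := by
  obtain ⟨C, hC⟩ := bounded (c := val v) (List.length_pos_of_ne_nil hv) (val_lt h) hd
  obtain ⟨l₀, h1, _, h3⟩ := hC n
  rw [AV_eq hv h]
  by_contra hlt
  push Not at hlt
  have hmem := Nat.sInf_mem (s := {l | 1 ≤ l ∧ E v.length (val v) (n + l * d) ≠
    E v.length (val v) n}) ⟨l₀, h1, h3⟩
  exact hmem.2 (hE _ hlt)

lemma AV_nonempty (hv : v ≠ []) (h : ∀ x ∈ v, x = 0 ∨ x = 1) (n : ℕ) {d : ℕ} (hd : 0 < d) :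
    {l | 1 ≤ l ∧ eV v (n + l * d) % 2 ≠ eV v n % 2}.Nonempty := by
  obtain ⟨C, hC⟩ := bounded (c := val v) (List.length_pos_of_ne_nil hv) (val_lt h) hd
  obtain ⟨l₀, h1, _, h3⟩ := hC n
  exact ⟨l₀, h1, (eV_odd_iff hv h _ _).2 h3⟩

lemma AV_bdd (hv : v ≠ []) (h : ∀ x ∈ v, x = 0 ∨ x = 1) {d : ℕ} (hd : 0 < d) :
    BddAbove (Set.range fun n => AV v n d) := by
  obtain ⟨C, hC⟩ := bounded (c := val v) (List.length_pos_of_ne_nil hv) (val_lt h) hd
  refine ⟨C, ?_⟩
  rintro _ ⟨n, rfl⟩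
  obtain ⟨l₀, h1, h2, h3⟩ := hC n
  exact (AV_le hv h h1 h3).trans h2

/-- **(b)** `A_v(d)` is never 2-regular. -/
lemma seqSup_not_regular (hv : v ≠ []) (h : ∀ x ∈ v, x = 0 ∨ x = 1) :
    ¬ TwoRegular (seqSup v) := by
  classical
  have hr1 : 1 ≤ v.length := List.length_pos_of_ne_nil hv
  have hc := val_lt h
  apply not_regular
  intro N
  -- the odd numbers
  obtain ⟨M, hM⟩ : ∃ M, 2 * N + 2 < 2 ^ M := ⟨2 * N + 2, Nat.lt_two_pow_self⟩
  let x : Fin N → ℕ := fun i => 2 ^ M + (2 * i.1 + 1)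
  have hM2 : 2 ^ M % 2 = 0 := by
    obtain ⟨M', rfl⟩ : ∃ M', M = M' + 1 := ⟨M - 1, by
      rcases Nat.eq_zero_or_pos M with rfl | h
      · simp at hM
      · omega⟩
    rw [pow_succ]; omega
  have hxodd : ∀ i, x i % 2 = 1 := by intro i; simp only [x]; omega
  have hxpos : ∀ i, 0 < x i := by intro i; simp only [x]; omega
  have hndvd : ∀ i k, i ≠ k → ¬ x i ∣ x k := by
    intro i k hik hdvd
    obtain ⟨t, ht⟩ := hdvd
    have hi := i.2
    have hk := k.2
    have hik' : i.1 ≠ k.1 := fun h => hik (Fin.ext h)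
    simp only [x] at ht
    rcases Nat.lt_or_ge t 1 with h0 | h0
    · have : t = 0 := by omega
      subst this; omega
    rcases Nat.lt_or_ge t 2 with h1 | h1
    · have : t = 1 := by omega
      subst this; omega
    · have : (2 ^ M + (2 * i.1 + 1)) * 2 ≤ (2 ^ M + (2 * i.1 + 1)) * t := Nat.mul_le_mul_left _ h1
      omega
  -- constants
  have hup : ∀ i k, ∃ C K₀, i ≠ k → ∀ K, K₀ ≤ K → ∀ n, ∃ l, 1 ≤ l ∧ l ≤ C ∧
      E v.length (val v) (n + l * (2 ^ K * x i + x k)) ≠ E v.length (val v) n := by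
    intro i k
    by_cases hik : i = k
    · exact ⟨0, 0, fun h => absurd hik h⟩
    · obtain ⟨C, K₀, h1⟩ := upper (c := val v) hr1 hc (hxodd i) (hndvd i k hik)
      exact ⟨C, K₀, fun _ => h1⟩
  choose C K₀ hCK using hup
  obtain ⟨Cm, hCm⟩ : ∃ Cm, ∀ i k, C i k ≤ Cm := by
    refine ⟨∑ i, ∑ k, C i k, fun i k => ?_⟩
    calc C i k ≤ ∑ k, C i k := Finset.single_le_sum (fun _ _ => Nat.zero_le _) (Finset.mem_univ k)
      _ ≤ _ := Finset.single_le_sum (f := fun i => ∑ k, C i k) (fun _ _ => Nat.zero_le _)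
        (Finset.mem_univ i)
  obtain ⟨Km, hKm⟩ : ∃ Km, ∀ i k, K₀ i k ≤ Km := by
    refine ⟨∑ i, ∑ k, K₀ i k, fun i k => ?_⟩
    calc K₀ i k ≤ ∑ k, K₀ i k := Finset.single_le_sum (fun _ _ => Nat.zero_le _) (Finset.mem_univ k)
      _ ≤ _ := Finset.single_le_sum (f := fun i => ∑ k, K₀ i k) (fun _ _ => Nat.zero_le _)
        (Finset.mem_univ i)
  have hlo : ∀ i : Fin N, ∃ K₁, ∀ K, K₁ ≤ K → ∃ n, ∀ l, l ≤ N * Cm →
      E v.length (val v) (n + l * (2 ^ K * x i + x i)) = E v.length (val v) n :=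
    fun i => lower hr1 (x i) (N * Cm)
  choose K₁ hK₁ using hlo
  obtain ⟨Kn, hKn⟩ : ∃ Kn, ∀ i, K₁ i ≤ Kn :=
    ⟨∑ i, K₁ i, fun i => Finset.single_le_sum (fun _ _ => Nat.zero_le _) (Finset.mem_univ i)⟩
  obtain ⟨K, hK⟩ : ∃ K, K = Km + Kn + (M + 1) := ⟨_, rfl⟩
  have hxK : ∀ k, x k < 2 ^ K := by
    intro k
    have h1 : x k < 2 ^ (M + 1) := by
      have := k.2
      simp only [x]
      rw [pow_succ]; omega
    exact h1.trans_le (Nat.pow_le_pow_right (by norm_num) (by omega))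
  -- entries
  have hoff : ∀ i k, i ≠ k → AVs v (2 ^ K * x i + x k) ≤ Cm := by
    intro i k hik
    apply csSup_le'
    rintro _ ⟨n, rfl⟩
    obtain ⟨l, h1, h2, h3⟩ := hCK i k hik K (by have := hKm i k; omega) n
    exact (AV_le hv h h1 h3).trans (h2.trans (hCm i k))
  have hdiag : ∀ i, N * Cm < AVs v (2 ^ K * x i + x i) := by
    intro i
    obtain ⟨n, hn⟩ := hK₁ i K (by have := hKn i; omega)
    have hd : 0 < 2 ^ K * x i + x i := by have := hxpos i; omega
    have h1 := le_AV hv h hd hn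
    exact h1.trans_le (le_csSup (AV_bdd hv h hd) ⟨n, rfl⟩)
  refine ⟨fun k d => seqSup v (2 ^ K * d + x k), fun k => ⟨K, x k, hxK k, rfl⟩, ?_⟩
  rw [Fintype.linearIndependent_iff]
  intro g hg
  by_contra hne
  push Not at hne
  obtain ⟨k₀, hk₀⟩ := hne
  obtain ⟨i, -, hi⟩ := Finset.exists_max_image Finset.univ (fun k => |g k|) ⟨k₀, Finset.mem_univ _⟩
  have hgi : 0 < |g i| := lt_of_lt_of_le (abs_pos.2 hk₀) (hi k₀ (Finset.mem_univ _))
  have hval : ∀ k, seqSup v (2 ^ K * x i + x k) = (AVs v (2 ^ K * x i + x k) : ℤ) := by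
    intro k
    unfold seqSup
    rw [if_neg]
    have := hxpos k; omega
  have heval := congrFun hg (x i)
  simp only [Finset.sum_apply, Pi.smul_apply, smul_eq_mul, Pi.zero_apply] at heval
  rw [← Finset.add_sum_erase _ _ (Finset.mem_univ i)] at heval
  simp only [hval] at heval
  have h1 : |g i * (AVs v (2 ^ K * x i + x i) : ℤ)| =
      |∑ k ∈ Finset.univ.erase i, g k * (AVs v (2 ^ K * x i + x k) : ℤ)| := by
    have : g i * (AVs v (2 ^ K * x i + x i) : ℤ) =
        -∑ k ∈ Finset.univ.erase i, g k * (AVs v (2 ^ K * x i + x k) : ℤ) := by linarith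
    rw [this, abs_neg]
  have h2 : |∑ k ∈ Finset.univ.erase i, g k * (AVs v (2 ^ K * x i + x k) : ℤ)| ≤
      ∑ k ∈ Finset.univ.erase i, |g i| * (Cm : ℤ) := by
    refine (Finset.abs_sum_le_sum_abs _ _).trans (Finset.sum_le_sum ?_)
    intro k hk
    rw [abs_mul]
    apply mul_le_mul (hi k (Finset.mem_univ _)) _ (abs_nonneg _) (abs_nonneg _)
    rw [abs_of_nonneg (Int.natCast_nonneg _)]
    exact_mod_cast hoff i k (Finset.ne_of_mem_erase hk).symm
  have h3 : ∑ k ∈ Finset.univ.erase i, |g i| * (Cm : ℤ) ≤ |g i| * (N * Cm : ℤ) := by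
    rw [Finset.sum_const, nsmul_eq_mul]
    have : ((Finset.univ.erase i).card : ℤ) ≤ N := by
      have := Finset.card_erase_le (s := (Finset.univ : Finset (Fin N))) (a := i)
      rw [Finset.card_univ, Fintype.card_fin] at this
      exact_mod_cast this
    have hnn : 0 ≤ |g i| * (Cm : ℤ) := by positivity
    nlinarith
  have h4 : |g i| * (N * Cm : ℤ) < |g i * (AVs v (2 ^ K * x i + x i) : ℤ)| := by
    rw [abs_mul, abs_of_nonneg (Int.natCast_nonneg (AVs v _))]
    apply mul_lt_mul_of_pos_left _ hgi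
    exact_mod_cast hdiag i
  linarith

/-- **(a), nonregular case** -/
lemma seqZero_not_regular (hv : v ≠ []) (h : ∀ x ∈ v, x = 0 ∨ x = 1) (h1 : 1 ∈ v) :
    ¬ TwoRegular (seqZero v) := by
  classical
  have hr1 : 1 ≤ v.length := List.length_pos_of_ne_nil hv
  have hc := val_lt h
  have hc0 : val v ≠ 0 := by
    obtain ⟨o, ho, hval, -, -⟩ := val_split h h1
    rw [hval]
    have : 0 < o := by omega
    positivity
  have hdl : dl (val v) = 0 := by unfold dl; rw [if_neg hc0]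
  apply not_regular
  intro N
  have hX : ∀ i : Fin (N + 1), ∃ X > 0, ∀ j, j % 2 = 1 → j ≤ 4 * N + 4 →
      G v.length (val v) (2 ^ v.length * (j * X)) = if j = 4 * i.1 + 1 then 1 else 0 :=
    fun i => ctrl hr1 hc _ _
  have hY : ∀ k : Fin N, ∃ Y > 0, ∀ j, j % 2 = 1 → j ≤ 4 * N + 4 →
      G v.length (val v) (2 ^ v.length * (j * Y)) = if j = 4 * k.1 + 3 then 1 else 0 :=
    fun k => ctrl hr1 hc _ _
  choose X hX0 hX using hX
  choose Y hY0 hY using hY
  obtain ⟨m, hm⟩ : ∃ m, ∀ k, (4 * N + 4) * (2 ^ v.length * Y k) < 2 ^ m := by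
    refine ⟨∑ k, (4 * N + 4) * (2 ^ v.length * Y k), fun k => ?_⟩
    calc (4 * N + 4) * (2 ^ v.length * Y k) ≤ ∑ k, (4 * N + 4) * (2 ^ v.length * Y k) :=
          Finset.single_le_sum (f := fun k => (4 * N + 4) * (2 ^ v.length * Y k))
            (fun _ _ => Nat.zero_le _) (Finset.mem_univ k)
      _ < _ := Nat.lt_two_pow_self
  have hYlt : ∀ k, 2 ^ v.length * Y k < 2 ^ (v.length + m) := by
    intro k
    have := hm k
    have h2 : 2 ^ m ≤ 2 ^ (v.length + m) := Nat.pow_le_pow_right (by norm_num) (by omega)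
    have h3 : 2 ^ v.length * Y k ≤ (4 * N + 4) * (2 ^ v.length * Y k) :=
      Nat.le_mul_of_pos_left _ (by omega)
    omega
  -- the value of the entries
  have hentry : ∀ (i : Fin (N + 1)) (k : Fin N),
      AV v 0 (2 ^ (v.length + m) * (2 ^ v.length * X i) + 2 ^ v.length * Y k) =
        if i.1 ≤ k.1 then 4 * i.1 + 1 else 4 * k.1 + 3 := by
    intro i k
    have hi := i.2
    have hk := k.2
    have hd : 0 < 2 ^ (v.length + m) * (2 ^ v.length * X i) + 2 ^ v.length * Y k := by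
      have := hX0 i; positivity
    rw [AV_zero_iff hv h hd]
    obtain ⟨d, hdd⟩ : ∃ d, d = 2 ^ (v.length + m) * (2 ^ v.length * X i) + 2 ^ v.length * Y k :=
      ⟨_, rfl⟩
    rw [← hdd]
    have hd' : 0 < d := by rw [hdd]; exact hd
    have hodd : ∀ j, j % 2 = 1 → j ≤ 4 * N + 4 → E v.length (val v) (j * d) =
        (if j = 4 * i.1 + 1 then 1 else 0) + (if j = 4 * k.1 + 3 then 1 else 0) := by
      intro j hj hjl
      have e1 : j * d = 2 ^ (v.length + m) * (2 ^ v.length * (j * X i)) +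
          2 ^ v.length * (j * Y k) := by rw [hdd]; ring
      have hj0 : 0 < j := by omega
      have hXi := hX0 i
      have hlt : 2 ^ v.length * (j * Y k) < 2 ^ m := by
        refine lt_of_le_of_lt ?_ (hm k)
        have : 2 ^ v.length * (j * Y k) = j * (2 ^ v.length * Y k) := by ring
        rw [this]; exact Nat.mul_le_mul_right _ hjl
      rw [e1, E_add (by positivity) (Dvd.intro _ rfl) m _ hlt, hdl, mul_zero, add_zero,
        E_eq_G hc0, hX i j hj hjl, hY k j hj hjl]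
    have hdr : 2 ^ v.length ∣ d := by
      rw [hdd]
      exact Dvd.dvd.add ((Dvd.intro _ rfl).mul_left _) (Dvd.intro _ rfl)
    have hvan : ∀ l, l ≤ 4 * N + 4 → (∀ j, j % 2 = 1 → j < l → E v.length (val v) (j * d) = 0) →
        ∀ j, 1 ≤ j → j < l → E v.length (val v) (j * d) = 0 := by
      intro l hl h0
      apply vanish hd' h0
      intro j hj hjl
      rw [Nat.mod_eq_zero_of_dvd ((hdr.mul_left j).mul_left 2)]
      exact hc0.symm
    split_ifs with hik
    · refine ⟨by omega, ?_, hvan _ (by omega) ?_⟩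
      · rw [hodd _ (by omega) (by omega), if_pos rfl, if_neg (by omega)]
        decide
      · intro j hj hjl
        rw [hodd j hj (by omega), if_neg (by omega), if_neg (by omega), add_zero]
    · refine ⟨by omega, ?_, hvan _ (by omega) ?_⟩
      · rw [hodd _ (by omega) (by omega), if_neg (by omega), if_pos rfl]
        decide
      · intro j hj hjl
        rw [hodd j hj (by omega), if_neg (by omega), if_neg (by omega), add_zero]
  refine ⟨fun k d => seqZero v (2 ^ (v.length + m) * d + 2 ^ v.length * Y k),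
    fun k => ⟨_, _, hYlt k, rfl⟩, ?_⟩
  rw [Fintype.linearIndependent_iff]
  intro g hg
  by_contra hne
  push Not at hne
  obtain ⟨k₀, hk₀⟩ := hne
  -- the largest index with nonzero coefficient
  obtain ⟨k, hk, hmax⟩ := Finset.exists_max_image (Finset.univ.filter (fun k => g k ≠ 0))
    (fun k => k.1) ⟨k₀, by simp [hk₀]⟩
  rw [Finset.mem_filter] at hk
  have hval : ∀ (i : Fin (N + 1)) (k : Fin N),
      seqZero v (2 ^ (v.length + m) * (2 ^ v.length * X i) + 2 ^ v.length * Y k) =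
        if i.1 ≤ k.1 then 4 * (i.1 : ℤ) + 1 else 4 * (k.1 : ℤ) + 3 := by
    intro i k
    unfold seqZero
    rw [if_neg, hentry]
    · split_ifs <;> push_cast <;> rfl
    · have := hX0 i
      have : 0 < 2 ^ (v.length + m) * (2 ^ v.length * X i) := by positivity
      omega
  have ev1 := congrFun hg (2 ^ v.length * X k.castSucc)
  have ev2 := congrFun hg (2 ^ v.length * X k.succ)
  simp only [Finset.sum_apply, Pi.smul_apply, smul_eq_mul, Pi.zero_apply, hval,
    Fin.val_castSucc, Fin.val_succ] at ev1 ev2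
  have hdiff : ∑ j : Fin N, g j * ((if k.1 + 1 ≤ j.1 then 4 * ((k.1 + 1 : ℕ) : ℤ) + 1
      else 4 * (j.1 : ℤ) + 3) - (if k.1 ≤ j.1 then 4 * (k.1 : ℤ) + 1 else 4 * (j.1 : ℤ) + 3)) = 0 := by
    simp only [mul_sub, Finset.sum_sub_distrib]
    rw [ev1, sub_zero]
    exact ev2
  rw [Finset.sum_eq_single k] at hdiff
  · rw [if_neg (by omega), if_pos le_rfl] at hdiff
    have : g k * 2 = 0 := by linarith
    rcases mul_eq_zero.1 this with h3 | h3
    · exact hk.2 h3
    · norm_num at h3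
  · intro j _ hjk
    have hjk' : j.1 ≠ k.1 := fun h => hjk (Fin.ext h)
    by_cases hj0 : g j = 0
    · rw [hj0, zero_mul]
    · have hle := hmax j (by simp [hj0])
      have hlt : j.1 < k.1 := by omega
      rw [if_neg (by omega), if_neg (by omega), sub_self, mul_zero]
  · intro h; exact absurd (Finset.mem_univ k) h

/-- decoding of the first odd term -/
noncomputable def firstOdd (R : ℕ) (t : Fin (R + 1) → ZMod 2) : ℕ :=
  sInf {l | ∃ h : l < R + 1, 1 ≤ l ∧ t ⟨l, h⟩ ≠ 0}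

/-- **(a), regular case** -/
lemma seqZero_regular (hv : v ≠ []) (h : ∀ x ∈ v, x = 0 ∨ x = 1) (h1 : 1 ∉ v) :
    TwoRegular (seqZero v) := by
  classical
  obtain ⟨r, hr⟩ : ∃ r, r = v.length := ⟨_, rfl⟩
  have hr1 : 1 ≤ r := by rw [hr]; exact List.length_pos_of_ne_nil hv
  have hcv : val v = 0 := val_zero h h1
  obtain ⟨R, hR⟩ : ∃ R, R = 2 ^ r := ⟨_, rfl⟩
  have hpr : 0 < 2 ^ (r - 1) := by positivity
  -- `A_v(0,m)` via `firstOdd`
  have hAV : ∀ m, 0 < m → AV v 0 m = firstOdd R (fun l => E r 0 (l.1 * m)) ∧ AV v 0 m ≤ R := by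
    intro m hm
    have hf := (AV_zero_iff hv h hm (AV v 0 m)).1 rfl
    rw [← hr, hcv] at hf
    have hle : AV v 0 m ≤ R := by
      rw [hR]
      rcases (values_zero hr1 (AV v 0 m)).1 ⟨m, hm, hf⟩ with ⟨_, h3⟩ | ⟨b, _, h4, h5⟩
      · exact h3.le
      · rw [h5]; exact Nat.pow_le_pow_right (by norm_num) h4
    refine ⟨?_, hle⟩
    have hmem : AV v 0 m ∈ {l | ∃ h : l < R + 1, 1 ≤ l ∧
        (fun l : Fin (R + 1) => E r 0 (l.1 * m)) ⟨l, h⟩ ≠ 0} := ⟨by omega, hf.1, hf.2.1⟩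
    unfold firstOdd
    apply le_antisymm
    · apply le_csInf ⟨AV v 0 m, hmem⟩
      rintro l ⟨hl, hl1, hl2⟩
      by_contra hlt
      push Not at hlt
      exact hl2 (hf.2.2 l hl1 hlt)
    · exact Nat.sInf_le hmem
  -- the finite family
  let Ψ : (Fin (R + 1) × (Fin (R + 1) → Fin (R + 1)) × (Fin (R + 1) → Fin (2 ^ (r - 1)) → ZMod 2)) →
      (ℕ → ℤ) := fun D d => if d = 0 then (D.1.1 : ℤ) else
      (firstOdd R (fun l => E r 0 (l.1 * d + (D.2.1 l).1) +
        D.2.2 l ⟨(l.1 * d + (D.2.1 l).1) % 2 ^ (r - 1), Nat.mod_lt _ hpr⟩) : ℤ)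
  have hsub : kernelSeqs (seqZero v) ⊆ Set.range Ψ := by
    rintro f ⟨e, ρ, hρ, rfl⟩
    have ha : (if ρ = 0 then 0 else AV v 0 ρ) < R + 1 := by
      split_ifs with h0
      · omega
      · have := (hAV ρ (by omega)).2; omega
    have hq : ∀ l : Fin (R + 1), l.1 * ρ / 2 ^ e < R + 1 := by
      intro l
      rw [Nat.div_lt_iff_lt_mul (by positivity)]
      have hl := l.2
      calc l.1 * ρ ≤ R * ρ := Nat.mul_le_mul_right _ (by omega)
        _ ≤ R * 2 ^ e := Nat.mul_le_mul_left _ hρ.le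
        _ < (R + 1) * 2 ^ e := Nat.mul_lt_mul_of_pos_right (by omega) (by positivity)
    refine ⟨(⟨_, ha⟩, fun l => ⟨_, hq l⟩, fun l s => E r 0 (2 ^ e * (s.1 + 2 ^ (r - 1)) +
      (l.1 * ρ) % 2 ^ e) + E r 0 (s.1 + 2 ^ (r - 1))), ?_⟩
    funext d
    rcases Nat.eq_zero_or_pos d with rfl | hd
    · simp only [Ψ, if_true, mul_zero, zero_add]
      unfold seqZero
      split_ifs <;> simp
    · have hne : 2 ^ e * d + ρ ≠ 0 := by positivity
      simp only [Ψ, if_neg hd.ne']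
      unfold seqZero
      rw [if_neg hne, (hAV _ (Nat.pos_of_ne_zero hne)).1]
      congr 1
      unfold firstOdd
      congr 1
      ext l
      simp only [Set.mem_ofPred_eq]
      have key : ∀ l, 1 ≤ l → E r 0 (l * (2 ^ e * d + ρ)) = E r 0 (l * d + l * ρ / 2 ^ e) +
          (E r 0 (2 ^ e * ((l * d + l * ρ / 2 ^ e) % 2 ^ (r - 1) + 2 ^ (r - 1)) + l * ρ % 2 ^ e) +
            E r 0 ((l * d + l * ρ / 2 ^ e) % 2 ^ (r - 1) + 2 ^ (r - 1))) := by
        intro l hl
        have e1 : l * (2 ^ e * d + ρ) = 2 ^ e * (l * d + l * ρ / 2 ^ e) + l * ρ % 2 ^ e := by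
          have := Nat.div_add_mod (l * ρ) (2 ^ e)
          calc l * (2 ^ e * d + ρ) = 2 ^ e * (l * d) + l * ρ := by ring
            _ = 2 ^ e * (l * d) + (2 ^ e * (l * ρ / 2 ^ e) + l * ρ % 2 ^ e) := by rw [this]
            _ = _ := by ring
        have j := E_join (r := r) (c := 0) (z := l * d + l * ρ / 2 ^ e)
          (z' := (l * d + l * ρ / 2 ^ e) % 2 ^ (r - 1) + 2 ^ (r - 1)) (by positivity)
          (by positivity) hr1 (by
            unfold Nat.ModEq
            rw [Nat.add_mod_right, Nat.mod_mod]) e (l * ρ % 2 ^ e) (Nat.mod_lt _ (by positivity))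
        rw [e1]
        have s1 := add_self' (E r 0 (l * d + l * ρ / 2 ^ e))
        linear_combination j - s1
      constructor
      · rintro ⟨hl, hl1, hl2⟩
        exact ⟨hl, hl1, by rw [key l hl1]; exact hl2⟩
      · rintro ⟨hl, hl1, hl2⟩
        exact ⟨hl, hl1, by rw [key l hl1] at hl2; exact hl2⟩
  have hfin : (kernelSeqs (seqZero v)).Finite := (Set.finite_range Ψ).subset hsub
  exact Submodule.fg_span hfin

/-- **MP_6350a9, Q1 for every pattern.** -/
theorem result (v : List ℕ) (hv : v ≠ []) (h01 : ∀ x ∈ v, x = 0 ∨ x = 1) :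
    (TwoRegular (seqZero v) ↔ 1 ∉ v) ∧
    ¬ TwoRegular (seqSup v) ∧
    (∀ n d, 1 ≤ d → {l | 1 ≤ l ∧ eV v (n + l * d) % 2 ≠ eV v n % 2}.Nonempty) ∧
    (∀ d, 1 ≤ d → BddAbove (Set.range fun n => AV v n d)) := by
  refine ⟨⟨fun h h1 => seqZero_not_regular hv h01 h1 h, seqZero_regular hv h01⟩,
    seqSup_not_regular hv h01, fun n d hd => AV_nonempty hv h01 n hd, fun d hd => AV_bdd hv h01 hd⟩

end Pool.Agent.Results.MP_6350a9_co.RegularityDichotomy
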